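import Mathlib
import Pool.Agent.H20.Q1.Sharp

set_option autoImplicit false
open Finset

/-!
# Two clusters cross the half annulus, one of them off the wall

`TwoC κ w ρ R` : two different open clusters of the half annulus `A⁺(w; ρ, R)` cross it and the first
one does not meet the wall. Its probability (`p = 1/2`) is at most `2 (1 - δ)^k u3` for `R = 4^k ρ`.
-/

namespace Pool.Agent.H9.Q1

open Pool.Agent.H75.Perc Pool.Agent.H75.TwoArm Pool.Agent.H75.Four Pool.Agent.H49.Perc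
open Pool.Agent.H99.NC Pool.Agent.H60.Q1 Pool.Agent.H20.Q1

/-- two clusters cross, the first one does not meet the wall -/
def TwoC (κ : ℤ) (w : ℤ × ℤ) (ρ R : ℤ) (ω : Finset (ℤ × ℤ)) : Prop :=
  ∃ u u' v v', Near w ρ u ∧ Far w R v ∧ Co (ω ∩ AL κ w ρ R) u v ∧
    Near w ρ u' ∧ Far w R v' ∧ Co (ω ∩ AL κ w ρ R) u' v' ∧ ¬ Co (ω ∩ AL κ w ρ R) u u' ∧
    ∀ y, Co (ω ∩ AL κ w ρ R) u y → ht κ y ≠ ht κ w

/-- `x` is the first near vertex of its cluster in `a`, which crosses and does not meet the wall -/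
def Fst (κ : ℤ) (w : ℤ × ℤ) (ρ R : ℤ) (a : Finset (ℤ × ℤ)) (x : ℤ × ℤ) (ω : Finset (ℤ × ℤ)) : Prop :=
  (∃ v, Far w R v ∧ Cl (fun y => y = x) a ω v) ∧
  (∀ y, Cl (fun y => y = x) a ω y → ht κ y ≠ ht κ w) ∧
  (∀ y, Near w ρ y → Cl (fun y => y = x) a ω y → Encodable.encode x ≤ Encodable.encode y)

/-- another cluster of `a` crosses -/
def Oth (w : ℤ × ℤ) (ρ R : ℤ) (a : Finset (ℤ × ℤ)) (x : ℤ × ℤ) (ω : Finset (ℤ × ℤ)) : Prop :=
  ∃ u v, Near w ρ u ∧ Far w R v ∧ ¬ Cl (fun y => y = x) a ω u ∧ Co (ω ∩ a) u v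

variable {κ : ℤ} {w x : ℤ × ℤ} {ρ R : ℤ} {a ω ω' : Finset (ℤ × ℤ)}

lemma Cl_one {u : ℤ × ℤ} : Cl (fun y => y = x) a ω u ↔ Co (ω ∩ a) x u := by
  unfold Cl
  constructor
  · rintro ⟨w0, h1, h2⟩
    rwa [h1] at h2
  · intro h
    exact ⟨x, rfl, h⟩

lemma Fst_mix : Fst κ w ρ R a x (mix (Ux (fun y => y = x) a ω) ω ω') ↔ Fst κ w ρ R a x ω := by
  unfold Fst
  simp only [Cl_mix]

/-- one step: given the cluster of `x`, another crossing cluster uses fresh labels -/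
lemma oth_le {δ : ℝ} {k : ℕ} (hρ : 1 ≤ ρ)
    (hdec : ∀ (E : Finset (ℤ × ℤ)),
      (∀ e ∈ E, (e.1 + e.2) % 2 = 1) → ∀ (x : ℤ × ℤ) (ρ : ℤ), 1 ≤ ρ → ∀ k : ℕ,
      Pr E (fun ω => ∃ u v : ℤ × ℤ, |u.1 - x.1| ≤ ρ ∧ |u.2 - x.2| ≤ ρ ∧
        (4 ^ k * ρ ≤ |v.1 - x.1| ∨ 4 ^ k * ρ ≤ |v.2 - x.2|) ∧ Co ω u v) ≤ (1 - δ) ^ k)
    (ha : ∀ e ∈ a, (e.1 + e.2) % 2 = 1) :
    PrP hf a (fun ω => Oth w ρ (4 ^ k * ρ) a x ω ∧ Fst κ w ρ (4 ^ k * ρ) a x ω) ≤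
      PrP hf a (Fst κ w ρ (4 ^ k * ρ) a x) * (1 - δ) ^ k := by
  refine resampleP_le hf_Pb a (Ux (fun y => y = x) a) (fun ω ω' _ _ => Ux_mix) _ _
    (fun ω ω' => Arm1 w ρ (4 ^ k * ρ) (ω' ∩ (a \ Ux (fun y => y = x) a ω))) _
    (fun ω ω' _ _ h => Fst_mix.1 h) ?_ ?_
  · intro ω _ _
    rw [PrP_restrict hf (E := a) (E1 := a \ Ux (fun y => y = x) a ω) sdiff_subset
      (Arm1 w ρ (4 ^ k * ρ)), hf_Pr]
    exact hdec _ (fun e he => ha e (mem_sdiff.1 he).1) w ρ hρ k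
  · rintro ω ω' _ _ _ ⟨u, v, h1, h2, h3, h4⟩
    rw [Cl_mix] at h3
    rw [fresh_iff h3] at h4
    exact ⟨u, v, h1.1, h1.2, h2, h4⟩

lemma AL_odd : ∀ e ∈ AL κ w ρ R, (e.1 + e.2) % 2 = 1 := fun _ he => (mem_AL.1 he).1.1.2.2

/-- a crossing cluster off the wall has a first near vertex -/
lemma exists_fst {u v : ℤ × ℤ} (hu : Near w ρ u) (hv : Far w R v) (h : Co (ω ∩ a) u v)
    (hw : ∀ y, Co (ω ∩ a) u y → ht κ y ≠ ht κ w) :
    ∃ x ∈ WW w ρ, Co (ω ∩ a) x u ∧ Fst κ w ρ R a x ω := by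
  classical
  obtain ⟨x, hx, hmin⟩ := exists_min_image ((WW w ρ).filter (fun y => Co (ω ∩ a) u y))
    (fun y => Encodable.encode y) ⟨u, mem_filter.2 ⟨mem_WW.2 (by
      rw [inR_iff]; unfold Near at hu; rw [abs_le, abs_le] at hu; omega), Co.refl _ _⟩⟩
  rw [mem_filter] at hx
  refine ⟨x, hx.1, hx.2.symm, ⟨v, hv, Cl_one.2 (hx.2.symm.trans h)⟩, fun y hy => ?_, fun y hy hc => ?_⟩
  · rw [Cl_one] at hy
    exact hw y (Relation.ReflTransGen.trans hx.2 hy)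
  · rw [Cl_one] at hc
    refine hmin y (mem_filter.2 ⟨mem_WW.2 ?_, Relation.ReflTransGen.trans hx.2 hc⟩)
    rw [inR_iff]; unfold Near at hy; rw [abs_le, abs_le] at hy; omega

/-- **two crossing clusters of which one is off the wall** -/
theorem two_cross : ∃ δ : ℝ, 0 < δ ∧ δ < 1 ∧ ∀ κ : ℤ, (κ = 0 ∨ κ = 1) → ∀ (w : ℤ × ℤ) (ρ : ℤ),
    1 ≤ ρ → ∀ k : ℕ, (1 - δ) ^ k ≤ 1 / 2 →
    PrP hf (AL κ w ρ (4 ^ k * ρ)) (TwoC κ w ρ (4 ^ k * ρ)) ≤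
      2 * (1 - δ) ^ k * u3 κ w ρ (4 ^ k * ρ) := by
  obtain ⟨δ, hδ0, hδ1, hdec⟩ := open_arm_decay
  refine ⟨δ, hδ0, hδ1, fun κ _ w ρ hρ k hk => ?_⟩
  set R : ℤ := 4 ^ k * ρ with hR
  set a := AL κ w ρ R with ha
  have ha1 : ∀ e ∈ a, (e.1 + e.2) % 2 = 1 := AL_odd
  set s : ℝ := (1 - δ) ^ k with hs
  have hs0 : 0 ≤ s := pow_nonneg (by linarith) _
  -- the sum of the first vertices
  set S : ℝ := ∑ x ∈ WW w ρ, PrP hf a (Fst κ w ρ R a x) with hS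
  have hoth : ∀ x ∈ WW w ρ, PrP hf a (fun ω => Oth w ρ R a x ω ∧ Fst κ w ρ R a x ω) ≤
      PrP hf a (Fst κ w ρ R a x) * s := fun x _ => oth_le hρ hdec ha1
  have hsum : ∑ x ∈ WW w ρ, PrP hf a (fun ω => Oth w ρ R a x ω ∧ Fst κ w ρ R a x ω) ≤ S * s := by
    refine (sum_le_sum hoth).trans ?_
    rw [← sum_mul]
  have h1 : S ≤ u3 κ w ρ R +
      ∑ x ∈ WW w ρ, PrP hf a (fun ω => Oth w ρ R a x ω ∧ Fst κ w ρ R a x ω) := by
    rw [hS, show u3 κ w ρ R = PrP hf a (U3 κ w ρ R) from (hf_Pr _ _).symm]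
    unfold PrP
    rw [← Ex_sum, ← Ex_sum, ← Ex_add]
    refine Ex_mono hf_Pb fun ω _ => ?_
    by_cases hc : ∃ x ∈ WW w ρ, Fst κ w ρ R a x ω ∧ ¬ Oth w ρ R a x ω
    · obtain ⟨x, hx, hF, hO⟩ := hc
      have hxN : Near w ρ x := by
        rw [mem_WW, inR_iff] at hx
        unfold Near
        rw [abs_le, abs_le]
        omega
      have hU : U3 κ w ρ R ω := by
        obtain ⟨v, hv, hxv⟩ := hF.1
        exact ⟨x, v, hxN, hv, Cl_one.1 hxv, fun y hy => hF.2.1 y (Cl_one.2 hy)⟩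
      rw [ind_true hU]
      have hone : ∀ y ∈ WW w ρ, y ≠ x → ind (Fst κ w ρ R a y ω) = 0 := by
        intro y hy hne
        refine ind_false fun hFy => ?_
        have hyN : Near w ρ y := by
          rw [mem_WW, inR_iff] at hy
          unfold Near
          rw [abs_le, abs_le]
          omega
        obtain ⟨v, hv, hyv⟩ := hFy.1
        rw [Cl_one] at hyv
        have hxy : Cl (fun z => z = x) a ω y := by
          by_contra hn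
          exact hO ⟨y, v, hyN, hv, hn, hyv⟩
        have e1 := hF.2.2 y hyN hxy
        have e2 := hFy.2.2 x hxN (Cl_one.2 (Cl_one.1 hxy).symm)
        exact hne (Encodable.encode_injective (le_antisymm e2 e1))
      rw [sum_eq_single_of_mem x hx hone, ind_true hF]
      have : 0 ≤ ∑ x ∈ WW w ρ, ind (Oth w ρ R a x ω ∧ Fst κ w ρ R a x ω) :=
        sum_nonneg fun _ _ => ind_nonneg _
      linarith
    · push Not at hc
      have h2 : ∑ x ∈ WW w ρ, ind (Fst κ w ρ R a x ω) ≤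
          ∑ x ∈ WW w ρ, ind (Oth w ρ R a x ω ∧ Fst κ w ρ R a x ω) :=
        sum_le_sum fun x hx => ind_mono fun hF => ⟨hc x hx hF, hF⟩
      have := ind_nonneg (U3 κ w ρ R ω)
      linarith
  have hS0 : 0 ≤ S := sum_nonneg fun _ _ => PrP_nonneg hf_Pb _ _
  have h2 : S ≤ 2 * u3 κ w ρ R := by nlinarith
  have h3 : PrP hf a (TwoC κ w ρ R) ≤
      ∑ x ∈ WW w ρ, PrP hf a (fun ω => Oth w ρ R a x ω ∧ Fst κ w ρ R a x ω) := by
    refine le_trans (PrP_mono hf_Pb fun ω _ h => ?_) (PrP_exists_le hf_Pb _ _ _)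
    obtain ⟨u, u', v, v', g1, g2, g3, g4, g5, g6, g7, g8⟩ := h
    obtain ⟨x, hx, hxu, hF⟩ := exists_fst g1 g2 g3 g8
    refine ⟨x, hx, ⟨u', v', g4, g5, fun hc => g7 ?_, g6⟩, hF⟩
    rw [Cl_one] at hc
    exact Relation.ReflTransGen.trans hxu.symm hc
  refine (h3.trans hsum).trans ?_
  calc S * s ≤ (2 * u3 κ w ρ R) * s := mul_le_mul_of_nonneg_right h2 hs0
    _ = 2 * s * u3 κ w ρ R := by ring

end Pool.Agent.H9.Q1
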